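import Pool.Agent.Helper77.SO.St3

set_option autoImplicit false

namespace Pool.Agent.Helper52.SO.ADD

open Equiv Equiv.Perm Pool.Agent.Helper35.PM Pool.Agent.Helper77.HY Pool.Agent.Helper77.OF4
  Pool.Agent.Helper77.SO

variable {V : Type} {G : SimpleGraph V}

theorem fst_pow (R : Rot G) (a : G.Dart) (n : ℕ) : ((R.r ^ n) a).fst = a.fst := by
  induction n with
  | zero => simp
  | succ n ih => rw [pow_succ', Perm.mul_apply, R.fst_r, ih]

/-- `AFV` only depends on the neighbours -/
theorem afv_congr (R : Rot G) (X X' W W' : Finset V) (v : V)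
    (hX : ∀ u, G.Adj v u → (u ∈ X' ↔ u ∈ X)) (hW : ∀ u, G.Adj v u → (u ∈ W' ↔ u ∈ W))
    (h : AFV R X W v) : AFV R X' W' v := by
  intro a b c e hav hAlt h1 h2 h3 h4 h5 h6 h7
  have hA := hAlt
  obtain ⟨i, j, k, _, _, _, _, hi, hj, hk⟩ := hA
  have ha : G.Adj v a.snd := by rw [← hav]; exact a.adj
  have hb : G.Adj v b.snd := by
    have : b.fst = v := by rw [← hi, fst_pow, hav]
    rw [← this]; exact b.adj
  have hc : G.Adj v c.snd := by
    have : c.fst = v := by rw [← hj, fst_pow, hav]
    rw [← this]; exact c.adj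
  have he : G.Adj v e.snd := by
    have : e.fst = v := by rw [← hk, fst_pow, hav]
    rw [← this]; exact e.adj
  rw [hW _ he]
  exact h a b c e hav hAlt ((hX _ ha).1 h1) ((hX _ hb).1 h2) ((hX _ hc).1 h3) ((hX _ he).1 h4)
    ((hW _ ha).1 h5) (fun h => h6 ((hW _ hb).2 h)) ((hW _ hc).1 h7)

theorem cyc_ind (S : Set V) {v : V} (p : G.Walk v v) (hp : p.IsCycle)
    (h : ∀ z ∈ p.support, z ∈ S) : (p.induce S h).IsCycle := by
  apply SimpleGraph.Walk.IsCycle.of_map (f := (SimpleGraph.Embedding.induce (G := G) S).toHom)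
  have := SimpleGraph.Walk.map_induce p h
  rw [this]
  exact hp

/-- adding a vertex with at most one neighbour keeps a forest -/
theorem acyc_add [Finite V] (S S' : Set V) (x : V) (hSS : ∀ v, v ∈ S' → v ≠ x → v ∈ S)
    (hS : (G.induce S).IsAcyclic) (h1 : {v : V | v ∈ S ∧ G.Adj x v}.ncard ≤ 1) :
    (G.induce S').IsAcyclic := by
  classical
  intro v c hc
  by_cases hx : ∃ y ∈ c.support, (y : V) = x
  · obtain ⟨y, hy, hyx⟩ := hx
    have hc' := SimpleGraph.Walk.IsCycle.rotate hy hc
    have hne := hc'.snd_ne_penultimate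
    have hnn := hc'.not_nil
    have ha1 := SimpleGraph.Walk.adj_snd hnn
    have ha2 := SimpleGraph.Walk.adj_penultimate hnn
    rw [SimpleGraph.induce_adj] at ha1 ha2
    rw [hyx] at ha1 ha2
    have h2 : 1 < {v : V | v ∈ S ∧ G.Adj x v}.ncard := by
      rw [Set.one_lt_ncard_iff (Set.toFinite _)]
      refine ⟨_, _, ⟨hSS _ (c.rotate y hy).snd.2 ?_, ha1⟩,
        ⟨hSS _ (c.rotate y hy).penultimate.2 ?_, ha2.symm⟩, ?_⟩
      · exact ha1.ne'
      · exact ha2.ne
      · intro h
        exact hne (Subtype.ext h)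
    omega
  · push Not at hx
    have hm : (c.map (SimpleGraph.Embedding.induce (G := G) S').toHom).IsCycle :=
      (SimpleGraph.Walk.isCycle_map_iff_of_injective Subtype.val_injective).2 hc
    have hsup : ∀ z ∈ (c.map (SimpleGraph.Embedding.induce (G := G) S').toHom).support, z ∈ S := by
      intro z hz
      rw [SimpleGraph.Walk.support_map, List.mem_map] at hz
      obtain ⟨y, hy, rfl⟩ := hz
      exact hSS _ y.2 (hx y hy)
    exact hS _ (cyc_ind S _ hm hsup)

theorem main : StAdd := by
  intro V _ _ G R X W x hxX hG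
  obtain ⟨hWX, hind, hac, hafv⟩ := hG
  have hxW : x ∉ W := fun h => hxX (hWX h)
  refine ⟨?_, ?_⟩
  · intro h1 h2
    refine ⟨Finset.insert_subset_insert x hWX, ?_, ?_, ?_⟩
    · intro a ha b hb hab
      rw [Finset.mem_insert] at ha hb
      rcases ha with rfl | ha
      · rcases hb with rfl | hb
        · exact G.loopless.irrefl _ hab
        · exact h1 b hb hab
      · rcases hb with rfl | hb
        · exact h1 a ha hab.symm
        · exact hind a ha b hb hab
    · have : {v | v ∈ insert x X ∧ v ∉ insert x W} = {v | v ∈ X ∧ v ∉ W} := by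
        ext v
        simp only [Set.mem_ofPred_eq, Finset.mem_insert, not_or]
        constructor
        · rintro ⟨h | h, h3, h4⟩
          · exact absurd h h3
          · exact ⟨h, h4⟩
        · rintro ⟨h3, h4⟩
          exact ⟨Or.inr h3, fun h => hxX (h ▸ h3), h4⟩
      rw [this]
      exact hac
    · intro v hv hvW
      rw [Finset.mem_insert, not_or] at hvW
      rw [Finset.mem_insert] at hv
      have hvX : v ∈ X := hv.resolve_left hvW.1
      by_cases hadj : G.Adj x v
      · exact h2 v hvX hadj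
      · apply afv_congr R X _ W _ v _ _ (hafv v hvX hvW.2)
        · intro u hu
          rw [Finset.mem_insert]
          exact ⟨fun h => h.resolve_left (fun h => hadj (h ▸ hu.symm)), Or.inr⟩
        · intro u hu
          rw [Finset.mem_insert]
          exact ⟨fun h => h.resolve_left (fun h => hadj (h ▸ hu.symm)), Or.inr⟩
  · intro h1 h2 h3
    refine ⟨hWX.trans (Finset.subset_insert x X), hind, ?_, ?_⟩
    · apply acyc_add {v | v ∈ X ∧ v ∉ W} _ x _ hac
      · refine le_trans (Set.ncard_le_ncard ?_ (Set.toFinite _)) h1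
        rintro v ⟨⟨ha, hb⟩, hc⟩
        exact ⟨ha, hb, hc⟩
      · rintro v ⟨hv, hvW⟩ hvx
        rw [Finset.mem_insert] at hv
        exact ⟨hv.resolve_left hvx, hvW⟩
    · intro v hv hvW
      rw [Finset.mem_insert] at hv
      by_cases hvx : v = x
      · rw [hvx]; exact h3
      · have hvX : v ∈ X := hv.resolve_left hvx
        by_cases hadj : G.Adj x v
        · exact h2 v hvX hvW hadj
        · apply afv_congr R X _ W _ v _ _ (hafv v hvX hvW)
          · intro u hu
            rw [Finset.mem_insert]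
            exact ⟨fun h => h.resolve_left (fun h => hadj (h ▸ hu.symm)), Or.inr⟩
          · intro u hu
            rfl

end Pool.Agent.Helper52.SO.ADD
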